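import Pool.Agent.Helper54.DFH.Free

/-!
Problem MP_59dd5b_al. The hypothesis of the Dress-Farrell-Hsiang criterion for a group `G`
and a family `𝓕` makes the action of `G` on the cosets of the members of `𝓕` amenable.
-/

namespace Pool.Agent.Helper54.Withdrawn.Amenability

open Pool.Agent.Helper54.DFH

universe u v

/-- Let `S` be a finite symmetric generating set of `G` and suppose that the hypothesis of the
Dress-Farrell-Hsiang criterion holds for `G` and a family `𝓕`. Then the action of `G` on the
disjoint union of the coset spaces `G / H`, `H ∈ 𝓕`, is amenable. Consequently `G` is amenable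
if every member of `𝓕` is amenable, and if every member of `𝓕` is virtually cyclic then `G` is
amenable and contains no free group of rank two. -/
theorem result {G : Type u} [Group G] (S : Set G) (_hfin : S.Finite)
    (hsymm : ∀ s ∈ S, s⁻¹ ∈ S) (hgen : Subgroup.closure S = ⊤)
    (𝓕 : Set (Subgroup G)) (h𝓕 : IsFamily 𝓕) (hcrit : Criterion.{u, v} S 𝓕) :
    AmenableAction G (Σ H : 𝓕, G ⧸ (H : Subgroup G)) ∧
    ((∀ H ∈ 𝓕, AmenableAction H H) → AmenableAction G G) ∧
    (𝓕 ⊆ VCyc G → AmenableAction G G ∧
      ∀ ρ : FreeGroup (Fin 2) →* G, ¬ Function.Injective ρ) := by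
  have h1 : AmenableAction G (Σ H : 𝓕, G ⧸ (H : Subgroup G)) :=
    cosets_amenable hsymm hgen h𝓕.nonempty hcrit
  have h2 : (∀ H ∈ 𝓕, AmenableAction H H) → AmenableAction G G := amenable_of_cosets h1
  refine ⟨h1, h2, fun hv => ?_⟩
  have h3 : AmenableAction G G := h2 fun H hH => by
    obtain ⟨z, hz⟩ := hv hH
    exact amenable_vcyc z hz
  exact ⟨h3, not_injective_of_amenable h3⟩

end Pool.Agent.Helper54.Withdrawn.Amenability
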