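import Pool.Agent.Helper54.DFH.AsdimCyc

/-!
Problem MP_59dd5b_al. The hypothesis of the Dress-Farrell-Hsiang criterion bounds the
asymptotic dimension of the group.
-/

namespace Pool.Agent.Helper54.Withdrawn.AsymptoticDimension

open Pool.Agent.Helper54.DFH

universe u v

/-- Let `S` be a finite symmetric generating set of `G` and suppose that the hypothesis of the
Dress-Farrell-Hsiang criterion holds for `G` and a family `𝓕` with complexes of dimension at
most `N`. If all members of `𝓕` have asymptotic dimension at most `k`, then `G` has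
asymptotic dimension at most `(N + 1) (k + 1) - 1`. If all members of `𝓕` are virtually
cyclic, then `G` has asymptotic dimension at most `2 N + 1`. -/
theorem result {G : Type u} [Group G] (S : Set G) (_hfin : S.Finite)
    (hsymm : ∀ s ∈ S, s⁻¹ ∈ S) (hgen : Subgroup.closure S = ⊤)
    (𝓕 : Set (Subgroup G)) (_h𝓕 : IsFamily 𝓕) (N : ℕ) (hcrit : CriterionDim.{u, v} S 𝓕 N) :
    (∀ k : ℕ, (∀ H ∈ 𝓕, AsdimLE H k) → AsdimLE G ((N + 1) * (k + 1) - 1)) ∧
    (𝓕 ⊆ VCyc G → AsdimLE G (2 * N + 1)) := by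
  have h1 : ∀ k : ℕ, (∀ H ∈ 𝓕, AsdimLE H k) → AsdimLE G ((N + 1) * (k + 1) - 1) :=
    fun k hk => asdim_of_criterion hsymm hgen hk hcrit
  refine ⟨h1, fun hv => ?_⟩
  have h2 := h1 1 fun H hH => by
    obtain ⟨z, hz⟩ := hv hH
    exact asdim_vcyc z hz
  have h3 : (N + 1) * (1 + 1) - 1 = 2 * N + 1 := by omega
  rwa [h3] at h2

end Pool.Agent.Helper54.Withdrawn.AsymptoticDimension
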