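import Pool.Agent.Helper54.DFH.Gap

/-!
Problem MP_59dd5b_al. The hypothesis of the Dress-Farrell-Hsiang criterion for a group `G`
and a family `𝓕` forces all finitely generated subgroups of `G` whose images in the finite
quotients of `G` are Dress groups to lie in `𝓕`.
-/

namespace Pool.Agent.Helper54.Withdrawn.DressSubgroups

open Pool.Agent.Helper54.DFH

universe u v

theorem exists_ball {G : Type u} [Group G] {S : Set G} (hsymm : ∀ s ∈ S, s⁻¹ ∈ S)
    (hgen : Subgroup.closure S = ⊤) (t : G) : ∃ r, t ∈ Ball S r := by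
  have ht : t ∈ Subgroup.closure S := by rw [hgen]; trivial
  induction ht using Subgroup.closure_induction with
  | mem s hs => exact ⟨1, [s], by simp, by simpa using hs, by simp⟩
  | one => exact ⟨0, [], by simp, by simp, by simp⟩
  | mul a b _ _ iha ihb =>
    obtain ⟨r, l, h1, h2, h3⟩ := iha
    obtain ⟨r', l', h1', h2', h3'⟩ := ihb
    refine ⟨r + r', l ++ l', ?_, ?_, ?_⟩
    · rw [List.length_append]; omega
    · intro s hs
      rcases List.mem_append.mp hs with h | h
      · exact h2 s h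
      · exact h2' s h
    · rw [List.prod_append, h3, h3']
  | inv a _ iha =>
    obtain ⟨r, l, h1, h2, h3⟩ := iha
    refine ⟨r, (l.map fun x => x⁻¹).reverse, ?_, ?_, ?_⟩
    · simpa using h1
    · intro s hs
      rw [List.mem_reverse, List.mem_map] at hs
      obtain ⟨x, hx, rfl⟩ := hs
      exact hsymm x (h2 x hx)
    · rw [← List.prod_inv_reverse, h3]

theorem ball_mono {G : Type u} [Group G] {S : Set G} {r r' : ℕ} (h : r ≤ r') :
    Ball S r ⊆ Ball S r' := by
  rintro g ⟨l, h1, h2, h3⟩
  exact ⟨l, h1.trans h, h2, h3⟩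

theorem criterion_of_top {G : Type u} [Group G] (S : Set G) {𝓕 : Set (Subgroup G)}
    (h𝓕 : IsFamily 𝓕) (h : (⊤ : Subgroup G) ∈ 𝓕) : Criterion.{u, v} S 𝓕 := by
  classical
  refine ⟨0, fun ε hε => ⟨Unit, inferInstance, inferInstance, 1, fun x => ⟨1, rfl⟩,
    fun D _ => ?_⟩⟩
  let φ : G → (PUnit.{v+1} →₀ ℝ) := fun _ => Finsupp.single PUnit.unit (1 : ℝ)
  have hφ : ∀ g : G, IsPoint {s : Finset PUnit.{v+1} | s = {PUnit.unit}} (φ g) := fun g =>
    ⟨isProb_single _, by
      show (Finsupp.single PUnit.unit (1 : ℝ)).support = {PUnit.unit}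
      exact Finsupp.support_single _ one_ne_zero⟩
  let act : MulAction (D.comap (1 : G →* Unit)) PUnit.{v+1} :=
    { smul := fun _ x => x
      one_smul := fun _ => rfl
      mul_smul := fun _ _ _ => rfl }
  refine ⟨PUnit.{v+1}, act,
    {s : Finset PUnit.{v+1} | s = {PUnit.unit}}, ⟨?_, ?_⟩, ?_, ?_, ?_, φ, hφ, ?_, ?_⟩
  · rintro s rfl; exact Finset.singleton_nonempty _
  · rintro s rfl t ht hne
    exact Finset.Subset.antisymm ht (by
      obtain ⟨x, hx⟩ := hne
      intro y _
      exact (Subsingleton.elim x y) ▸ hx)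
  · rintro s rfl; simp
  · rintro h s rfl
    ext y
    simp
  · intro x _
    exact h𝓕.sub _ h _ le_top
  · intro h g w
    rfl
  · intro g g' _
    show nrm (Finsupp.single PUnit.unit (1 : ℝ) - Finsupp.single PUnit.unit (1 : ℝ)) ≤ ε
    rw [sub_self, nrm_zero]
    exact hε.le

/-- Let `S` be a finite symmetric generating set of `G` and suppose that the hypothesis of the
Dress-Farrell-Hsiang criterion holds for `G` and a family `𝓕`. Then for every `r` there is an
epimorphism `π` from `G` onto a finite group such that every subgroup `L` of `G` which is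
generated by elements of word length at most `r` and for which `π(L)` is a Dress group belongs
to `𝓕`. In particular `𝓕` contains every finitely generated subgroup `L` whose image in every
finite quotient of `G` is a Dress group. Hence, if all finite quotients of `G` are Dress
groups, the hypothesis of the criterion holds for `G` and `𝓕` if and only if `G ∈ 𝓕`. -/
theorem result {G : Type u} [Group G] (S : Set G) (_hfin : S.Finite)
    (hsymm : ∀ s ∈ S, s⁻¹ ∈ S) (hgen : Subgroup.closure S = ⊤)
    (𝓕 : Set (Subgroup G)) (h𝓕 : IsFamily 𝓕) :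
    (Criterion.{u, v} S 𝓕 →
      (∀ r : ℕ, ∃ (F : Type) (_ : Group F) (_ : Finite F) (π : G →* F), Function.Surjective π ∧
        ∀ T : Set G, T ⊆ Ball S r → IsDress ((Subgroup.closure T).map π) →
          Subgroup.closure T ∈ 𝓕) ∧
      (∀ L : Subgroup G, L.FG →
        (∀ (F : Type) [Group F] [Finite F] (π : G →* F), IsDress (L.map π)) → L ∈ 𝓕)) ∧
    ((∀ (F : Type) [Group F] [Finite F] (π : G →* F), IsDress π.range) →
      (Criterion.{u, v} S 𝓕 ↔ (⊤ : Subgroup G) ∈ 𝓕)) := by
  have key : Criterion.{u, v} S 𝓕 → ∀ r : ℕ, ∃ (F : Type) (_ : Group F) (_ : Finite F)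
      (π : G →* F), Function.Surjective π ∧
        ∀ T : Set G, T ⊆ Ball S r → ∀ D : Subgroup F, IsDress D →
          T ⊆ (D.comap π) → Subgroup.closure T ∈ 𝓕 := by
    rintro ⟨N, hN⟩ r
    have hpos : (0 : ℝ) < 1 / ((r + 1) * (N + 2) ^ 2) := by positivity
    obtain ⟨F, _, _, π, hπ, hD⟩ := hN _ hpos
    refine ⟨F, inferInstance, inferInstance, π, hπ, fun T hT D hDD hTD => ?_⟩
    refine mem_of_contraction h𝓕 hpos.le ?_ _ (hD D hDD) T hT hTD
    rw [mul_one_div, div_mul_eq_mul_div, div_le_one (by positivity)]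
    have : (0 : ℝ) ≤ (N + 2) ^ 2 := by positivity
    nlinarith
  have key2 : Criterion.{u, v} S 𝓕 → ∀ L : Subgroup G, L.FG →
      (∀ (F : Type) [Group F] [Finite F] (π : G →* F), ∃ D : Subgroup F, IsDress D ∧
        L ≤ D.comap π) → L ∈ 𝓕 := by
    intro hc L hL hLD
    obtain ⟨T, hT⟩ := hL
    choose r hr using fun t : G => exists_ball hsymm hgen t
    obtain ⟨F, _, _, π, _, hF⟩ := key hc (∑ t ∈ T, r t)
    obtain ⟨D, hD, hLD'⟩ := hLD F π
    rw [← hT]
    refine hF T (fun t ht => ball_mono (Finset.single_le_sum (f := r) (fun _ _ => Nat.zero_le _)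
      (Finset.mem_coe.mp ht)) (hr t)) D hD fun t ht => hLD' ?_
    rw [← hT]
    exact Subgroup.subset_closure ht
  refine ⟨fun hc => ⟨fun r => ?_, fun L hL hLD => ?_⟩, fun hall => ⟨fun hc => ?_, ?_⟩⟩
  · obtain ⟨F, _, _, π, hπ, hF⟩ := key hc r
    refine ⟨F, inferInstance, inferInstance, π, hπ, fun T hT hTD => ?_⟩
    exact hF T hT _ hTD fun t ht =>
      ⟨t, Subgroup.subset_closure ht, rfl⟩
  · refine key2 hc L hL fun F _ _ π => ⟨L.map π, hLD F π, ?_⟩
    exact Subgroup.le_comap_map π L
  · -- all finite quotients are Dress groups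
    have hfg : (⊤ : Subgroup G).FG := by
      rw [← hgen]
      exact ⟨_hfin.toFinset, by simp⟩
    refine key2 hc ⊤ hfg fun F _ _ π => ⟨π.range, hall F π, ?_⟩
    intro g _
    exact ⟨g, rfl⟩
  · exact fun h => criterion_of_top S h𝓕 h

end Pool.Agent.Helper54.Withdrawn.DressSubgroups
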