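import Mathlib
import Pool.Agent.Helper54.SL.Final

/-!
The Markov-Bernstein inequality on the Hamming cube in `L^4` up to the square root of a logarithm.

Let `f` be real of degree at most `d`, `f_s = exp(s N) f` with `N` the Laplacian, `P_ν = exp(-ν N)`.
The function `L(s, ν) = log E f_s^2 P_ν f_s^2` satisfies, along every line `(s, ν_0 + k s)`,
`L'' ≥ -4 d / sinh ν`. This comes from the commutator of the operator `N_x - N_y` with its adjoint
in `L^2` of the noise kernel (`Helper54/SL/Comm.lean`) and from the fact that `x ↦ f(x) f(xz)` has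
degree at most `2d` for every `z`. Integration along the line up to infinity bounds the growth rate
of `E f_s^2 P_{1/d} f_s^2` by `4d + 2dk + (8d/k) log(d+1)`, hence, with `k = 2 √log(d+1)`,
the growth of `exp(sN)` in `L^4`. The growth of `exp(iθN)` and Cauchy's formula finish the proof.
-/

open Finset

namespace Pool.Agent.Helper54.Withdrawn.SqrtLog

open Pool.Agent.Helper54.MB Pool.Agent.Helper54.SL

/-- For all `n`, `d` and every real `f = ∑_S c_S x^S` on `{-1,1}^n` of degree at most `d`, with
`Δ f = ∑_S |S| c_S x^S`, `∑_x |Δ f(x)|^4 ≤ (37 d √log(d + 1))^4 ∑_x |f(x)|^4`. -/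
theorem result (n d : ℕ) (c : Finset (Fin n) → ℝ)
    (hc : ∀ S : Finset (Fin n), d < S.card → c S = 0) :
    (∑ x : Fin n → Bool,
        |∑ S : Finset (Fin n), (S.card : ℝ) * c S *
            ∏ i ∈ S, (if x i then (1 : ℝ) else -1)| ^ 4)
      ≤ (37 * d * Real.sqrt (Real.log (d + 1))) ^ 4 *
        ∑ x : Fin n → Bool,
          |∑ S : Finset (Fin n), c S *
              ∏ i ∈ S, (if x i then (1 : ℝ) else -1)| ^ 4 := by
  have h := complex_bound4 (d := d) (fun S => (c S : ℂ)) (fun S hS => by simp [hc S hS])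
  have hch : ∀ (S : Finset (Fin n)) (x : Fin n → Bool),
      ch S x = ((∏ i ∈ S, (if x i then (1 : ℝ) else -1) : ℝ) : ℂ) := by
    intro S x
    unfold ch
    rw [Complex.ofReal_prod]
    refine prod_congr rfl fun i _ => ?_
    cases x i <;> simp
  have h1 : ∀ x : Fin n → Bool, ‖∑ S : Finset (Fin n), (S.card : ℂ) * (c S : ℂ) * ch S x‖ =
      |∑ S : Finset (Fin n), (S.card : ℝ) * c S *
            ∏ i ∈ S, (if x i then (1 : ℝ) else -1)| := by
    intro x
    rw [← Real.norm_eq_abs, ← Complex.norm_real]
    congr 1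
    rw [Complex.ofReal_sum]
    refine sum_congr rfl fun S _ => ?_
    rw [hch]
    push_cast
    rfl
  have h2 : ∀ x : Fin n → Bool, ‖∑ S : Finset (Fin n), (c S : ℂ) * ch S x‖ =
      |∑ S : Finset (Fin n), c S * ∏ i ∈ S, (if x i then (1 : ℝ) else -1)| := by
    intro x
    rw [← Real.norm_eq_abs, ← Complex.norm_real]
    congr 1
    rw [Complex.ofReal_sum]
    refine sum_congr rfl fun S _ => ?_
    rw [hch]
    push_cast
    rfl
  simp only [h1, h2] at h
  exact h

end Pool.Agent.Helper54.Withdrawn.SqrtLog
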